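import Pool.Agent.Q197.WN.Exact

/-!
# Consecutive elements at distance 6 between consecutive cubes: the exact entropy budget and the exact price of the exceptions, for all random sets
-/

set_option autoImplicit false

namespace Pool.Agent.Results.MP_5628fe_nt.EntropyBudget

open Finset Filter Pool.Agent.Q197.WN Pool.Agent.Q120.CL Pool.Agent.Q120.HL Pool.Agent.Q120.ET
open scoped Topology

open Classical in
/-- The number of the pairs `(x, x + 6)` of consecutive elements of `S` with `n ^ 3 < x` and `x + 6 < (n + 1) ^ 3`. -/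
noncomputable def Q (n : ℕ) (S : Set ℕ) : ℕ :=
  ((range ((n + 1) ^ 3)).filter (fun x => n ^ 3 < x ∧ x + 6 < (n + 1) ^ 3 ∧ x ∈ S ∧ x + 6 ∈ S ∧
    ∀ y, x < y → y < x + 6 → y ∉ S)).card

/-- The window between two consecutive cubes. -/
def W (n : ℕ) : Finset ℕ := Ioo (n ^ 3) ((n + 1) ^ 3)

/-- The expected number of pairs in the window. -/
noncomputable def E (n : ℕ) : ℝ := SS {0, 6} * ((n : ℝ) ^ 2 / (3 * Real.log n ^ 2))

/-- The entropy budget and the price of the exceptions. -/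
theorem result (z : ℕ → ℕ) (hz : Tendsto z atTop atTop) (hs : ∀ η : ℝ, 0 < η → ∀ᶠ k : ℕ in atTop, (z k : ℝ) ≤ η * k) :
    0 < SS {0, 6} ∧ Phase (pr z) W Q E (fun k M => (M : ℝ) * (4 ^ k / (k : ℝ) ^ 2)) ∧ Low (pr z) W Q E := by
  classical
  have hσ : 0 < SS {0, 6} := by
    apply SS_pos
    intro p hp _
    have hcard : nu {0, 6} p ≤ 2 := by
      unfold nu
      exact card_image_le
    rcases Nat.lt_or_ge 2 p with h | h
    · omega
    · have h2 := hp.two_le
      interval_cases p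
      unfold nu; decide
  have hS : Tendsto (fun k => Sz {0, 6} (z k)) atTop (𝓝 (SS {0, 6})) := (Sz_tendsto _).comp hz
  have hDE : ({0, 6} : Finset ℕ) ⊆ range 7 := by decide
  have hE : ∀ h ∈ range 7, h ≤ 6 := fun h hh => by rw [mem_range] at hh; omega
  have hne : ({0, 6} : Finset ℕ).Nonempty := ⟨0, by decide⟩
  have hcard : ({0, 6} : Finset ℕ).card = 2 := by decide
  have h1 := pow_phase (m := 2) (by norm_num) hS hs hDE hE hne hσ
  have h2 := (pow_wins (m := 2) (by norm_num)).low_exact hS hs hDE hE hne hσ (pow_asy (m := 2) (by norm_num) ({0, 6} : Finset ℕ).card (SS {0, 6}))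
  have eW : (fun n : ℕ => Ico (n ^ (2 + 1) + 1) ((n + 1) ^ (2 + 1))) = W := by
    funext n
    ext x
    unfold W
    rw [mem_Ico, mem_Ioo]
    simp only [Nat.reduceAdd]
    omega
  have eQ : (fun n : ℕ => pat {0, 6} (range 7) 6 (n ^ (2 + 1) + 1) ((n + 1) ^ (2 + 1))) = Q := by
    funext n S
    unfold pat Pool.Agent.Q197.WN.cnt Q
    refine congrArg card ?_
    ext x
    simp only [mem_filter, mem_Ico, mem_range, Nat.reduceAdd]
    constructor
    · rintro ⟨⟨h3, h4⟩, h5⟩
      refine ⟨by omega, by omega, by omega, ?_, ?_, ?_⟩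
      · exact (h5 (x + 0) (mem_sh.2 ⟨0, by decide, rfl⟩)).2 (mem_sh.2 ⟨0, by decide, rfl⟩)
      · exact (h5 (x + 6) (mem_sh.2 ⟨6, by decide, rfl⟩)).2 (mem_sh.2 ⟨6, by decide, rfl⟩)
      · intro y h6 h7 hy
        obtain ⟨h, hh, hy2⟩ := mem_sh.1 ((h5 y (mem_sh.2 ⟨y - x, mem_range.2 (by omega), by omega⟩)).1 hy)
        simp only [mem_insert, mem_singleton] at hh
        omega
    · rintro ⟨_, h3, h4, h5, h6, h7⟩
      refine ⟨⟨by omega, by omega⟩, fun y hy => ⟨fun h8 => ?_, fun h8 => ?_⟩⟩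
      · obtain ⟨h, hh, rfl⟩ := mem_sh.1 hy
        rw [mem_range] at hh
        rcases Nat.eq_zero_or_pos h with h9 | h9
        · exact mem_sh.2 ⟨h, by rw [h9]; decide, rfl⟩
        · rcases Nat.lt_or_ge h 6 with h10 | h10
          · exact absurd h8 (h7 _ (by omega) (by omega))
          · have h11 : h = 6 := by omega
            exact mem_sh.2 ⟨h, by rw [h11]; decide, rfl⟩
      · obtain ⟨h, hh, rfl⟩ := mem_sh.1 h8
        simp only [mem_insert, mem_singleton] at hh
        rcases hh with rfl | rfl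
        · exact h5
        · exact h6
  have eE : (fun n : ℕ => SS {0, 6} * ((((2 + 1 : ℕ) : ℝ) * (n : ℝ) ^ 2) /
      (((2 + 1 : ℕ) : ℝ) * Real.log n) ^ ({0, 6} : Finset ℕ).card)) = E := by
    funext n
    unfold E
    rw [hcard, mul_pow]
    congr 1
    push_cast
    rw [mul_div_mul_comm]
    rcases eq_or_ne (Real.log n) 0 with h0 | h0
    · rw [h0]; simp
    · field_simp
  have eU : (fun (k M : ℕ) => (M : ℝ) * (((2 : ℝ) ^ k) ^ 2 / (k : ℝ) ^ ({0, 6} : Finset ℕ).card)) =
      (fun (k M : ℕ) => (M : ℝ) * (4 ^ k / (k : ℝ) ^ 2)) := by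
    funext k M
    rw [hcard, ← pow_mul, mul_comm k 2, pow_mul]
    norm_num
  rw [eW, eQ, eE] at h2
  rw [eW, eQ, eE, eU] at h1
  exact ⟨hσ, h1, h2⟩

end Pool.Agent.Results.MP_5628fe_nt.EntropyBudget
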