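import Pool.Agent.Q154.NP.Gap

/-!
# Almost primes `p`, `p + 6` without a prime between them, between consecutive cubes: dense subsets and colourings

Between ALL large consecutive cubes there are at least `c n ^ 2 / log ^ 2 n` integers `p` such that `n ^ 3 < p < p + 6 < (n + 1) ^ 3`, there
is no prime between `p` and `p + 6`, and `p`, `p + 6` have no prime factor `≤ n ^ (2/t)`. Every subset of positive relative
density of the set of these `p` contains arithmetic progressions of every given length with differences at most a power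
of `log n`, and so does some class of every colouring with finitely many colours, with constant numbers of prime factors of
`p` and of `p + 6` along the progression. The same is proved for every even number `g` in place of `6` and for all consecutive
`k`-th powers, `k ≥ 2`.

Libraries: `Q250.NP.Core` (engine for narrow progressions, by the seat helper250), `Q253.Thin` and `Q253.Cov` (sieve for
all systems of residue classes), `Y843.HS` (starting files: Szemerédi's theorem relative to sifted sets).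
-/

set_option autoImplicit false

namespace Pool.Agent.Results.MP_5628fe_nt.EveryCube

open Finset
open Pool.Agent.Q154.NP

open Classical in
/-- the `p` with `n ^ k < p < p + g < (n + 1) ^ k` such that there is no prime strictly between `p` and `p + g` and such that `p` and
`p + g` have no prime factor `≤ ((n + 1) ^ k - n ^ k) ^ (1/t)` -/
noncomputable def Pairs (k t g n : ℕ) : Finset ℕ :=
  (Ioo (n ^ k) ((n + 1) ^ k)).filter (fun p => p + g < (n + 1) ^ k ∧
    (∀ r : ℕ, p < r → r < p + g → ¬ r.Prime) ∧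
    ∀ q : ℕ, q.Prime → (q ∣ p ∨ q ∣ p + g) → (((n + 1) ^ k - n ^ k : ℕ) : ℝ) ^ (1 / (t : ℝ)) < q)

lemma pairs_sub (k t g n : ℕ) : Pairs k t g n ⊆ Pool.Agent.Q154.NP.btw k t 1 0 ![0, g] n := by
  classical
  intro p hp
  unfold Pairs at hp
  unfold Pool.Agent.Q154.NP.btw
  rw [mem_filter] at hp ⊢
  obtain ⟨h1, h2, _, h4⟩ := hp
  refine ⟨h1, Nat.mod_one p, fun i => ?_⟩
  fin_cases i
  · exact ⟨(mem_Ioo.1 h1).2, fun q hq hd => h4 q hq (Or.inl hd)⟩
  · exact ⟨h2, fun q hq hd => h4 q hq (Or.inr hd)⟩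

lemma sub_pairs {k t g n M a : ℕ} (hk : 2 ≤ k) (hM : 1 ≤ M) (hn : M ≤ n)
    (hj : ∀ j, 0 < j → j < g → ∃ q : ℕ, q.Prime ∧ q ∣ M ∧ q ∣ a + j) :
    Pool.Agent.Q154.NP.btw k t M a ![0, g] n ⊆ Pairs k t g n := by
  classical
  intro p hp
  unfold Pool.Agent.Q154.NP.btw at hp
  unfold Pairs
  rw [mem_filter] at hp ⊢
  obtain ⟨h1, h2, h3⟩ := hp
  refine ⟨h1, (h3 1).1, fun r hr1 hr2 hrp => ?_, fun q hq hd => ?_⟩
  · obtain ⟨q, hq, hqM, hqa⟩ := hj (r - p) (by omega) (by omega)
    have h4 : q ∣ r := by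
      have h5 : r = M * (p / M) + (a + (r - p)) := by
        have := Nat.div_add_mod p M
        omega
      rw [h5]
      exact dvd_add (hqM.mul_right _) hqa
    have h5 : q = r := (Nat.prime_dvd_prime_iff_eq hq hrp).1 h4
    have h6 : q ≤ M := Nat.le_of_dvd hM hqM
    have h7 : n ≤ n ^ k := Nat.le_self_pow (by omega) n
    have h8 := (mem_Ioo.1 h1).1
    omega
  · rcases hd with hd | hd
    · exact (h3 0).2 q hq hd
    · exact (h3 1).2 q hq hd

/-- There is `t ≥ 1` such that for all `k ≥ 2` and all even `g ≥ 2` (for instance `k = 3`, `g = 6`):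
(1) for some `c > 0` and all large `n` the set `Pairs k t g n` has at least `c n ^ (k-1) / log ^ 2 n` elements;
(2) for given `L` and `δ > 0` there is `D` such that for all large `n` every subset of `Pairs k t g n` of relative density at least
`δ` contains an arithmetic progression with `L` terms and difference between `1` and `log ^ D n`;
(3) for given `L` and `K` there is `D` such that for all large `n` and every colouring of the integers with `K` colours there are
numbers `s`, `s'` between `1` and `2t` and an arithmetic progression with `L` terms `p` in `Pairs k t g n`, of one colour, with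
difference between `1` and `log ^ D n`, such that all its `p` have `s` prime factors and all `p + g` have `s'` prime factors
(counted with multiplicity). -/
theorem result : ∃ t : ℕ, 1 ≤ t ∧ ∀ k : ℕ, 2 ≤ k → ∀ g : ℕ, Even g → 2 ≤ g →
    (∃ c : ℝ, 0 < c ∧ ∃ N₀ : ℕ, ∀ n : ℕ, N₀ ≤ n →
      c * (n : ℝ) ^ (k - 1) / Real.log n ^ 2 ≤ ((Pairs k t g n).card : ℝ)) ∧
    (∀ (L : ℕ) (δ : ℝ), 0 < δ → ∃ D N₀ : ℕ, ∀ n : ℕ, N₀ ≤ n →
      ∀ S ⊆ Pairs k t g n, δ * ((Pairs k t g n).card : ℝ) ≤ S.card →
        ∃ p d : ℕ, 1 ≤ d ∧ (d : ℝ) ≤ Real.log n ^ D ∧ ∀ j < L, p + j * d ∈ S) ∧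
    (∀ L K : ℕ, ∃ D N₀ : ℕ, ∀ n : ℕ, N₀ ≤ n →
      ∀ χ : ℕ → Fin K, ∃ (s s' : ℕ) (κ : Fin K), (1 ≤ s ∧ s ≤ 2 * t) ∧ (1 ≤ s' ∧ s' ≤ 2 * t) ∧
        ∃ p d : ℕ, 1 ≤ d ∧ (d : ℝ) ≤ Real.log n ^ D ∧ ∀ j < L, p + j * d ∈ Pairs k t g n ∧
          (p + j * d).primeFactorsList.length = s ∧ (p + j * d + g).primeFactorsList.length = s' ∧
          χ (p + j * d) = κ) := by
  classical
  obtain ⟨t, ht, H⟩ := pow_main 2 (by norm_num)
  refine ⟨t, ht, fun k hk g hg hg2 => ?_⟩
  obtain ⟨M, a, hM, haM, hA, hj⟩ := exists_class hg (by omega)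
  have hgn : ∀ n : ℕ, g ≤ n → ∀ i : Fin 2, (![0, g] : Fin 2 → ℕ) i ≤ n ^ (k - 1) := by
    intro n hn i
    have h1 : n ≤ n ^ (k - 1) := Nat.le_self_pow (by omega) n
    fin_cases i
    · exact Nat.zero_le _
    · exact hn.trans h1
  obtain ⟨c, hc, ⟨N₁, h1⟩, -, h3, C, N₂, hC, h4⟩ := H k hk M hM
  obtain ⟨c', hc', -, h2', -, -⟩ := H k hk 1 le_rfl
  refine ⟨⟨c, hc, max N₁ (max M g), fun n hn => ?_⟩, fun L δ hδ => ?_, fun L K => ?_⟩
  · have g1 := (le_max_left _ _).trans hn
    have g2 := ((le_max_left _ _).trans (le_max_right _ _)).trans hn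
    have g3 := ((le_max_right _ _).trans (le_max_right _ _)).trans hn
    refine (h1 n g1 a _ haM hA (hgn n g3)).trans ?_
    exact_mod_cast card_le_card (sub_pairs hk hM g2 hj)
  · obtain ⟨D, N₀, h5⟩ := h2' L (δ / C) (by positivity)
    refine ⟨D, max (max N₀ N₂) (max M g), fun n hn S hS hSc => ?_⟩
    have g0 := ((le_max_left _ _).trans (le_max_left _ _)).trans hn
    have g1 := ((le_max_right _ _).trans (le_max_left _ _)).trans hn
    have g2 := ((le_max_left _ _).trans (le_max_right _ _)).trans hn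
    have g3 := ((le_max_right _ _).trans (le_max_right _ _)).trans hn
    refine h5 n g0 0 _ (by norm_num) hA.one (hgn n g3) S (hS.trans (pairs_sub k t g n)) ?_
    have h6 := h4 n g1 a _ haM hA (hgn n g3)
    have h7 : ((Pool.Agent.Q154.NP.btw k t M a ![0, g] n).card : ℝ) ≤ ((Pairs k t g n).card : ℝ) := by
      exact_mod_cast card_le_card (sub_pairs hk hM g2 hj)
    calc δ / C * ((Pool.Agent.Q154.NP.btw k t 1 0 ![0, g] n).card : ℝ)
        ≤ δ / C * (C * ((Pool.Agent.Q154.NP.btw k t M a ![0, g] n).card : ℝ)) := mul_le_mul_of_nonneg_left h6 (by positivity)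
      _ = δ * ((Pool.Agent.Q154.NP.btw k t M a ![0, g] n).card : ℝ) := by field_simp
      _ ≤ δ * ((Pairs k t g n).card : ℝ) := mul_le_mul_of_nonneg_left h7 hδ.le
      _ ≤ _ := hSc
  · obtain ⟨D, N₀, h5⟩ := h3 L K
    refine ⟨D, max N₀ (max M g), fun n hn χ => ?_⟩
    have g1 := (le_max_left _ _).trans hn
    have g2 := ((le_max_left _ _).trans (le_max_right _ _)).trans hn
    have g3 := ((le_max_right _ _).trans (le_max_right _ _)).trans hn
    obtain ⟨s, κ, h6, p, d, hd1, hd2, h7⟩ := h5 n g1 a _ haM hA (hgn n g3) χ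
    refine ⟨s 0, s 1, κ, h6 0, h6 1, p, d, hd1, hd2, fun j hj' => ?_⟩
    obtain ⟨e1, e2, e3⟩ := h7 j hj'
    exact ⟨sub_pairs hk hM g2 hj e1, e2 0, e2 1, e3⟩

end Pool.Agent.Results.MP_5628fe_nt.EveryCube
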