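import Pool.Agent.Q106.MD.Cons

/-!
# MP_5628fe_nt: consecutive elements with given gaps between consecutive powers in the sieved models of the primes

The sieved model of level `Q`: a random set `A` which contains the integers `n` coprime to `Q` independently with
probability `(Q / φ(Q)) / log n` (at most `1`), and no others (`IsModel μ (level Q) A`; `Q = 1` is Cramér's model).
An exact configuration `H` at `m`: the elements of `A` between `m` and `m + max H` are exactly the `m + h`, `h ∈ H`; for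
`H = {0, 6}` these are the pairs of consecutive elements with difference `6`. The predicted number is the alternating
sum of the Hardy-Littlewood predictions for all sets between `H` and `{0, …, max H}`. Almost surely, for all `k ≥ 2` and
all finite families of configurations and parts of the windows `(n^k, (n+1)^k)`, the vectors of the deviations divided by
the square roots of `2 · prediction · log n` approach the closed unit ball, have all its points as limit points, and
are near a point `d` for about `x^(1 - |d|^2)` of the `n ≤ x`.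
-/

set_option autoImplicit false

namespace Pool.Agent.Results.MP_5628fe_nt.GapsBetweenPowers

open Finset MeasureTheory ProbabilityTheory Filter
open scoped Topology
open Pool.Agent.Q120.GM (IsModel level sing)

open Classical in
/-- The part `[u, v)` of the window: the `m` with `n^k < m < (n+1)^k` and
`n^k + u ((n+1)^k - n^k) ≤ m < n^k + v ((n+1)^k - n^k)`. -/
noncomputable def cell (k n : ℕ) (u v : ℚ) : Finset ℕ :=
  (Ioo (n ^ k) ((n + 1) ^ k)).filter (fun m : ℕ =>
    (n : ℝ) ^ k + u * (((n : ℝ) + 1) ^ k - (n : ℝ) ^ k) ≤ m ∧ (m : ℝ) < (n : ℝ) ^ k + v * (((n : ℝ) + 1) ^ k - (n : ℝ) ^ k))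

/-- The elements of `A` between `m` and `m + max H` are exactly the `m + h`, `h ∈ H`. -/
def Exactly (A : Set ℕ) (H : Finset ℕ) (m : ℕ) : Prop := ∀ j ≤ H.sup id, m + j ∈ A ↔ j ∈ H

/-- The number of the exact configurations which start in the part and lie in the window. -/
noncomputable def count (A : Set ℕ) (k n : ℕ) (H : Finset ℕ) (u v : ℚ) : ℝ :=
  ({m : ℕ | m ∈ cell k n u v ∧ m + H.sup id < (n + 1) ^ k ∧ Exactly A H m}.ncard : ℝ)

/-- The predicted number: the alternating sum over the sets `S` with `H ⊆ S ⊆ {0, …, max H}` of the singular series of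
level `Q` of `S` times the sum of `1 / (log m)^|S|`. -/
noncomputable def predicted (Q k n : ℕ) (H : Finset ℕ) (u v : ℚ) : ℝ :=
  ∑ T ∈ (range (H.sup id + 1) \ H).powerset,
    (-1 : ℝ) ^ T.card * (sing Q (H ∪ T) * ∑ m ∈ cell k n u v, 1 / Real.log m ^ (H ∪ T).card)

/-- The normalized deviation. -/
noncomputable def deviation (A : Set ℕ) (Q k n : ℕ) (H : Finset ℕ) (u v : ℚ) : ℝ :=
  (count A k n H u v - predicted Q k n H u v) / Real.sqrt (2 * predicted Q k n H u v * Real.log n)

/-- A family of configurations `H i` (they contain `0`, and their singular series are positive) and parts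
`[u i, v i)` of the windows, such that different members have different configurations or disjoint parts. -/
def Family (Q : ℕ) {r : ℕ} (H : Fin r → Finset ℕ) (u v : Fin r → ℚ) : Prop :=
  (∀ i, 0 ∈ H i ∧ 0 < sing Q (H i) ∧ 0 ≤ u i ∧ u i < v i ∧ v i ≤ 1) ∧
    ∀ i j, i ≠ j → H i ≠ H j ∨ v i ≤ u j ∨ v j ≤ u i

theorem cell_eq {k n : ℕ} (hk : 1 ≤ k) {u v : ℚ} (hv : v ≤ 1) :
    cell k n u v = Ico (Pool.Agent.Q106.MD.lo k n u) (Pool.Agent.Q106.MD.hi k n v) := by
  classical
  ext m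
  have h1 := Pool.Agent.Q106.MD.hi_le (n := n) hk hv
  unfold cell
  rw [mem_filter, mem_Ioo, mem_Ico]
  have h2 : Pool.Agent.Q106.MD.lo k n u ≤ m ↔ n ^ k < m ∧ (n : ℝ) ^ k + u * (((n : ℝ) + 1) ^ k - (n : ℝ) ^ k) ≤ m := by
    unfold Pool.Agent.Q106.MD.lo Pool.Agent.Q106.MD.len
    rw [max_le_iff, Nat.ceil_le, Nat.succ_le_iff]
  have h3 : m < Pool.Agent.Q106.MD.hi k n v ↔ (m : ℝ) < (n : ℝ) ^ k + v * (((n : ℝ) + 1) ^ k - (n : ℝ) ^ k) := by
    unfold Pool.Agent.Q106.MD.hi Pool.Agent.Q106.MD.len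
    rw [Nat.lt_ceil]
  constructor
  · rintro ⟨⟨h4, _⟩, h6, h7⟩
    exact ⟨h2.2 ⟨h4, h6⟩, h3.2 h7⟩
  · rintro ⟨h4, h5⟩
    have h6 := h2.1 h4
    exact ⟨⟨h6.1, by omega⟩, h6.2, h3.1 h5⟩

theorem deviation_eq {Ω : Type} (A : Ω → Set ℕ) {Q k : ℕ} (hk : 1 ≤ k) (H : Finset ℕ) {u v : ℚ} (hv : v ≤ 1)
    (n : ℕ) (ω : Ω) : deviation (A ω) Q k n H u v = Pool.Agent.Q106.MD.dvx Q A k H u v n ω := by
  have h1 : count (A ω) k n H u v =
      Pool.Agent.Q106.MD.exN A (Pool.Agent.Q106.MD.Jq k H u v n) H ω := by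
    rw [Pool.Agent.Q106.MD.exN_card]
    unfold count
    congr 2
    ext m
    unfold Pool.Agent.Q106.MD.Jq Exactly
    rw [← cell_eq hk hv]
    constructor
    · rintro ⟨h2, h3, h4⟩
      refine ⟨mem_filter.2 ⟨h2, h3⟩, fun h hh => (h4 h ?_).2 hh, fun j hj hj2 => (h4 j hj).1 hj2⟩
      exact Finset.le_sup (f := id) hh
    · rintro ⟨h2, h3, h4⟩
      rw [mem_filter] at h2
      exact ⟨h2.1, h2.2, fun j hj => ⟨fun h5 => h4 j hj h5, fun h5 => h3 j h5⟩⟩
  have h2 : predicted Q k n H u v = Pool.Agent.Q106.MD.exP Q k H u v n := by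
    unfold predicted Pool.Agent.Q106.MD.exP Pool.Agent.Q106.MD.gaps Pool.Agent.Q106.MD.prP Pool.Agent.Q106.MD.li
    rw [cell_eq hk hv]
  unfold deviation Pool.Agent.Q106.MD.dvx
  rw [h1, h2]

/-- **The law of the exact configurations between consecutive powers.** Almost surely, for all `k ≥ 2` and all families
of configurations and parts of the windows: (1) the vectors of the deviations approach the closed unit ball, (2) all
points of the closed unit ball are limit points, (3) the number of the `n ≤ x` for which the vector is near `d`,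
`|d| < 1`, is `x^(1 - |d|^2)` up to `x^(±δ)`. -/
theorem result {Ω : Type} [MeasurableSpace Ω] {μ : Measure Ω} [IsProbabilityMeasure μ] {A : Ω → Set ℕ} {Q : ℕ}
    (hQ : 1 ≤ Q) (hA : IsModel μ (level Q) A) :
    ∀ᵐ ω ∂μ, ∀ k, 2 ≤ k → ∀ (r : ℕ) (H : Fin r → Finset ℕ) (u v : Fin r → ℚ), Family Q H u v →
      (∀ ε > 0, ∀ᶠ n in atTop, ∑ i, deviation (A ω) Q k n (H i) (u i) (v i) ^ 2 ≤ 1 + ε) ∧
      (∀ d : Fin r → ℝ, ∑ i, d i ^ 2 ≤ 1 → ∀ ε > 0,
        ∃ᶠ n in atTop, ∀ i, |deviation (A ω) Q k n (H i) (u i) (v i) - d i| < ε) ∧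
      ∀ d : Fin r → ℝ, ∑ i, d i ^ 2 < 1 → ∀ δ > 0, ∃ ε₀ > 0, ∀ ε, 0 < ε → ε ≤ ε₀ → ∀ᶠ x : ℕ in atTop,
        (x : ℝ) ^ (1 - ∑ i, d i ^ 2 - δ) ≤
          ({n : ℕ | n ≤ x ∧ ∀ i, |deviation (A ω) Q k n (H i) (u i) (v i) - d i| < ε}.ncard : ℝ) ∧
        ({n : ℕ | n ≤ x ∧ ∀ i, |deviation (A ω) Q k n (H i) (u i) (v i) - d i| < ε}.ncard : ℝ) ≤
          (x : ℝ) ^ (1 - ∑ i, d i ^ 2 + δ) := by
  filter_upwards [Pool.Agent.Q106.MD.cons_all hA hQ] with ω hω k hk r H u v hF
  have h1 := hω k hk r H u v hF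
  have hk1 : 1 ≤ k := by omega
  have h2 : ∀ n i, deviation (A ω) Q k n (H i) (u i) (v i) = Pool.Agent.Q106.MD.dvx Q A k (H i) (u i) (v i) n ω :=
    fun n i => deviation_eq A hk1 (H i) (hF.1 i).2.2.2.2 n ω
  simp only [h2]
  exact h1

end Pool.Agent.Results.MP_5628fe_nt.GapsBetweenPowers
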