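import Pool.Agent.Q253.Thin.LogPow

/-!
# Consecutive primes with difference 6 between consecutive cubes

(1) Between ALL large consecutive cubes there are about `n ^ 2 / log ^ 2 n` pairs `(p, p + 6)` of almost primes with no prime between
them, and at most this order of pairs of sexy primes. (2) All these intervals are represented faithfully by one sparse set of
integers with about `log ^ 3 n` elements between `n ^ 3` and `(n + 1) ^ 3`. (3) For a positive proportion of the `n` there are at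
least `κ n ^ 2 / log ^ 2 n` primes `p` between the cubes with no prime between `p` and `p + 6` such that `p + 6` is a prime or
a product of two large primes.

Libraries: `Y840.CT.GenF` (Chen's theorem for systems of shifts), `Y151.HS.FLC` (fundamental lemma), `Y79.HS.Den`,
starting files.
-/

set_option autoImplicit false

namespace Pool.Agent.Results.MP_5628fe_nt.SexyCubes

open Finset Filter
open Pool.Agent.Q253.Thin

/-- no prime strictly between `p` and `p + 6` -/
def NoPrimeBetween (p : ℕ) : Prop := ∀ q : ℕ, p < q → q < p + 6 → ¬ q.Prime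

open Classical in
/-- the `p` of the pairs of sexy primes `(p, p + 6)` between `n ^ 3` and `(n + 1) ^ 3` -/
noncomputable def Sexy (n : ℕ) : Finset ℕ :=
  (Ioo (n ^ 3) ((n + 1) ^ 3)).filter (fun p => p + 6 < (n + 1) ^ 3 ∧ p.Prime ∧ (p + 6).Prime ∧ NoPrimeBetween p)

/-- the number of the pairs of sexy primes between `n ^ 3` and `(n + 1) ^ 3` -/
noncomputable def S (n : ℕ) : ℕ := (Sexy n).card

open Classical in
/-- the `p` such that `p`, `p + 6` have no prime factor `≤ z` and there is no prime between them -/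
noncomputable def Almost (z : ℝ) (n : ℕ) : Finset ℕ :=
  (Ioo (n ^ 3) ((n + 1) ^ 3)).filter (fun p => p + 6 < (n + 1) ^ 3 ∧ NoPrimeBetween p ∧
    ∀ q : ℕ, q.Prime → (q ∣ p ∨ q ∣ p + 6) → z < q)

/-- those for which `p` and `p + 6` have exactly `a` and `b` prime factors (with multiplicity) -/
noncomputable def AlmostR (z : ℝ) (a b n : ℕ) : Finset ℕ :=
  (Almost z n).filter (fun p => p.primeFactorsList.length = a ∧ (p + 6).primeFactorsList.length = b)

open Classical in
/-- the primes `p` among them such that `p + 6` is a prime or a product of two primes -/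
noncomputable def Chen (z : ℝ) (n : ℕ) : Finset ℕ :=
  (Almost z n).filter (fun p => p.Prime ∧ ((p + 6).Prime ∨ ∃ a b : ℕ, a.Prime ∧ b.Prime ∧ p + 6 = a * b))

/-- the number of the integers `p` with `n ^ 3 < p` and `p + 6 < (n + 1) ^ 3` -/
def len (n : ℕ) : ℕ := (n + 1) ^ 3 - n ^ 3 - 7

/-- the sampled count `|T ∩ W|` is `|T| |W| / len n` up to the error `ε |T| / log ^ 2 n` -/
def Faithful (ε : ℝ) (n : ℕ) (T W : Finset ℕ) : Prop :=
  |((T ∩ W).card : ℝ) - T.card * (W.card / len n)| ≤ ε * (T.card / Real.log n ^ 2)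

/-- the shifts -/
def H2 : ℕ → Finset ℕ := fun _ => {0, 6}

/-- the shifts together with the classes which force `p ≡ 1` modulo `15` -/
def H15 : ℕ → Finset ℕ := fun q => if q = 3 then {0, 1, 6} else if q = 5 then {0, 1, 2, 3, 6} else {0, 6}

lemma H2_sub (q : ℕ) : H2 q ⊆ H15 q := by
  unfold H2 H15
  split_ifs <;> decide

lemma two_le_card {H : ℕ → Finset ℕ} (hs : ∀ q, ({0, 6} : Finset ℕ) ⊆ H q) {q : ℕ} (hq : q.Prime) (h5 : 3 < q) :
    2 ≤ (Tz H q).card := by
  have hq5 : 5 ≤ q := by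
    rcases Nat.lt_or_ge q 5 with h | h
    · interval_cases q
      exact absurd hq (by norm_num)
    · exact h
  have h0 : 0 ∈ Tz H q := by
    unfold Tz
    rw [mem_filter, mem_range]
    exact ⟨hq.pos, 0, hs q (by simp), by simp⟩
  have h1 : (q - 6 % q) ∈ Tz H q := by
    unfold Tz
    rw [mem_filter, mem_range]
    have h2 : 6 % q ≠ 0 := by
      intro h
      have h3 := Nat.dvd_of_mod_eq_zero h
      have h4 : q ∈ Nat.divisors 6 := Nat.mem_divisors.2 ⟨h3, by norm_num⟩
      have h5 : Nat.divisors 6 = {1, 2, 3, 6} := by decide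
      rw [h5] at h4
      simp only [mem_insert, mem_singleton] at h4
      rcases h4 with h | h | h | h
      · omega
      · omega
      · omega
      · subst h
        exact absurd hq (by norm_num)
    have h3 := Nat.mod_lt 6 hq.pos
    refine ⟨by omega, 6, hs q (by simp), ?_⟩
    have h4 : (q - 6 % q) + 6 = q * (1 + 6 / q) := by
      have h5 := Nat.div_add_mod 6 q
      rw [Nat.mul_add, Nat.mul_one]
      omega
    rw [h4]
    exact Dvd.intro _ rfl
  have hne : 0 ≠ q - 6 % q := by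
    have h3 := Nat.mod_lt 6 hq.pos
    omega
  have : ({0, q - 6 % q} : Finset ℕ) ⊆ Tz H q := by
    intro x hx
    rw [mem_insert, mem_singleton] at hx
    rcases hx with rfl | rfl
    · exact h0
    · exact h1
  have h5 := card_le_card this
  rwa [card_pair hne] at h5

lemma h2card : ∀ q : ℕ, q.Prime → (H2 q).card ≤ 2 := fun q _ => by unfold H2; decide

lemma h15card : ∀ q : ℕ, q.Prime → (H15 q).card ≤ 5 := fun q _ => by
  unfold H15
  split_ifs <;> decide

lemma h2loc : ∀ q : ℕ, q.Prime → (Tz H2 q).card < q := by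
  intro q hq
  rcases Nat.lt_or_ge q 5 with h5 | h5
  · interval_cases q
    · exact absurd hq Nat.not_prime_zero
    · exact absurd hq Nat.not_prime_one
    · decide
    · decide
    · exact absurd hq (by norm_num)
  · exact lt_of_le_of_lt ((Tz_card H2 hq.pos).trans (h2card q hq)) (by omega)

lemma h15loc : ∀ q : ℕ, q.Prime → (Tz H15 q).card < q := by
  intro q hq
  rcases Nat.lt_or_ge q 6 with h5 | h5
  · interval_cases q
    · exact absurd hq Nat.not_prime_zero
    · exact absurd hq Nat.not_prime_one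
    · decide
    · decide
    · exact absurd hq (by norm_num)
    · decide
  · exact lt_of_le_of_lt ((Tz_card H15 hq.pos).trans (h15card q hq)) (by omega)

lemma h2k : ∀ q : ℕ, q.Prime → 5 < q → (Tz H2 q).card = 2 := fun q hq h =>
  le_antisymm ((Tz_card H2 hq.pos).trans (h2card q hq)) (two_le_card (fun q => by unfold H2; exact Subset.refl _) hq (by omega))

lemma h15k : ∀ q : ℕ, q.Prime → 5 < q → (Tz H15 q).card = 2 := fun q hq h => by
  refine le_antisymm ((Tz_card H15 hq.pos).trans ?_) (two_le_card (fun q => H2_sub q) hq (by omega))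
  unfold H15
  rw [if_neg (by omega), if_neg (by omega)]
  decide

lemma len_eq (n : ℕ) : LP 3 6 n = len n := by
  unfold LP len
  omega

lemma window (n : ℕ) (p : ℕ) : (n ^ 3 < p ∧ p + 6 < (n + 1) ^ 3) ↔ p ∈ Ioc (n ^ 3) (n ^ 3 + LP 3 6 n) := by
  rw [mem_Ioc]
  unfold LP
  have : n ^ 3 ≤ (n + 1) ^ 3 := Nat.pow_le_pow_left (Nat.le_succ n) _
  omega

/-- `p ≡ 1` modulo `15` leaves no prime between `p` and `p + 6` -/
lemma no_prime {p : ℕ} (h3 : p % 3 ∉ Tz H15 3) (h5 : p % 5 ∉ Tz H15 5) (h2 : ¬ 2 ∣ p) (hp : 6 ≤ p) : NoPrimeBetween p := by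
  have e3 : Tz H15 3 = {0, 2} := by decide
  have e5 : Tz H15 5 = {0, 2, 3, 4} := by decide
  rw [e3] at h3
  rw [e5] at h5
  simp only [mem_insert, mem_singleton, not_or] at h3 h5
  have g3 : p % 3 = 1 := by omega
  have g5 : p % 5 = 1 := by omega
  intro q h1 h2' hq
  have hodd : ¬ 2 ∣ q := by
    intro h
    have := (Nat.prime_dvd_prime_iff_eq Nat.prime_two hq).1 h
    omega
  have hcase : q = p + 2 ∨ q = p + 4 := by omega
  rcases hcase with rfl | rfl
  · have h6 : 3 ∣ p + 2 := by omega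
    have := (Nat.prime_dvd_prime_iff_eq Nat.prime_three hq).1 h6
    omega
  · have h6 : 5 ∣ p + 4 := by omega
    have := (Nat.prime_dvd_prime_iff_eq Nat.prime_five hq).1 h6
    omega

lemma mem_IS {H : ℕ → Finset ℕ} {t n p : ℕ} : p ∈ IS t (LP 3 6 n) (n ^ 3) (n ^ 3 + LP 3 6 n) (Tz H) ↔
    (n ^ 3 < p ∧ p + 6 < (n + 1) ^ 3) ∧
    (∀ q : ℕ, q.Prime → (q : ℝ) ≤ (len n : ℝ) ^ (1 / (t : ℝ)) → p % q ∉ Tz H q) := by
  classical
  unfold IS
  rw [mem_filter, window, len_eq]

lemma mem_almost {z : ℝ} {n p : ℕ} : p ∈ Almost z n ↔ (n ^ 3 < p ∧ p + 6 < (n + 1) ^ 3) ∧ NoPrimeBetween p ∧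
    ∀ q : ℕ, q.Prime → (q ∣ p ∨ q ∣ p + 6) → z < q := by
  classical
  unfold Almost
  rw [mem_filter, mem_Ioo]
  constructor
  · rintro ⟨⟨a1, a2⟩, a3, a4⟩
    exact ⟨⟨a1, a3⟩, a4⟩
  · rintro ⟨⟨a1, a3⟩, a4⟩
    exact ⟨⟨a1, by omega⟩, a3, a4⟩

lemma almost_sub (t n : ℕ) : Almost ((len n : ℝ) ^ (1 / (t : ℝ))) n ⊆
    IS t (LP 3 6 n) (n ^ 3) (n ^ 3 + LP 3 6 n) (Tz H2) := by
  intro p hp
  rw [mem_almost] at hp
  obtain ⟨a1, _, a3⟩ := hp
  rw [mem_IS]
  refine ⟨a1, fun q hq hqz hmem => ?_⟩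
  obtain ⟨h, hh, hd⟩ := (mem_Tz H2 hq.pos p).1 hmem
  unfold H2 at hh
  rw [mem_insert, mem_singleton] at hh
  have : (len n : ℝ) ^ (1 / (t : ℝ)) < q := by
    rcases hh with rfl | rfl
    · exact a3 q hq (Or.inl hd)
    · exact a3 q hq (Or.inr hd)
  linarith

lemma sub_almost (t n : ℕ) (hn : 2 ≤ n) (h5 : (5 : ℝ) ≤ (len n : ℝ) ^ (1 / (t : ℝ))) :
    IS t (LP 3 6 n) (n ^ 3) (n ^ 3 + LP 3 6 n) (Tz H15) ⊆ Almost ((len n : ℝ) ^ (1 / (t : ℝ))) n := by
  intro p hp
  rw [mem_IS] at hp
  obtain ⟨a1, a3⟩ := hp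
  rw [mem_almost]
  have hp6 : 6 ≤ p := by
    have : 2 ^ 3 ≤ n ^ 3 := Nat.pow_le_pow_left hn _
    omega
  have h2 : ¬ 2 ∣ p := by
    intro h
    refine a3 2 Nat.prime_two (by push_cast; linarith) ((mem_Tz H15 (by norm_num) p).2 ⟨0, ?_, by simpa using h⟩)
    exact H2_sub 2 (by unfold H2; simp)
  refine ⟨a1, no_prime (a3 3 Nat.prime_three (by push_cast; linarith)) (a3 5 Nat.prime_five (by push_cast; linarith)) h2 hp6,
    fun q hq hd => ?_⟩
  by_contra hcon
  push Not at hcon
  refine a3 q hq hcon ((mem_Tz H15 hq.pos p).2 ?_)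
  rcases hd with hd | hd
  · exact ⟨0, H2_sub q (by unfold H2; simp), by simpa using hd⟩
  · exact ⟨6, H2_sub q (by unfold H2; simp), hd⟩

lemma len_le (n : ℕ) (hn : 12 ≤ n) : 1 ≤ len n ∧ len n ≤ n ^ 3 := by
  have h1 := (pow_gap 3 n (by norm_num)).2
  have h2 := (LP_bounds (e := 3) (m := 6) (n := n) (by norm_num) (by omega)).1
  rw [len_eq] at h2
  refine ⟨by omega, ?_⟩
  unfold len
  have h3 : 3 * (n + 1) ^ (3 - 1) ≤ n ^ 3 := by
    have h4 : (3 - 1 : ℕ) = 2 := rfl
    rw [h4]
    nlinarith [Nat.mul_le_mul_right (n * n) hn]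
  omega

lemma sexy_sub (t n : ℕ) (ht : 1 ≤ t) (hn : 12 ≤ n) : Sexy n ⊆ Almost ((len n : ℝ) ^ (1 / (t : ℝ))) n := by
  classical
  intro p hp
  have h1 : p ∈ Ioo (n ^ 3) ((n + 1) ^ 3) ∧ (p + 6 < (n + 1) ^ 3 ∧ p.Prime ∧ (p + 6).Prime ∧ NoPrimeBetween p) := by
    unfold Sexy at hp
    rwa [mem_filter] at hp
  obtain ⟨a1, a2, a3, a4, a5⟩ := h1
  rw [mem_almost]
  rw [mem_Ioo] at a1
  refine ⟨⟨a1.1, a2⟩, a5, fun q hq hd => ?_⟩
  have h3 : q = p ∨ q = p + 6 := by
    rcases hd with hd | hd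
    · exact Or.inl ((Nat.prime_dvd_prime_iff_eq hq a3).1 hd)
    · exact Or.inr ((Nat.prime_dvd_prime_iff_eq hq a4).1 hd)
  have hlen1 : (1 : ℝ) ≤ len n := by exact_mod_cast (len_le n hn).1
  have h4 : (len n : ℝ) ^ (1 / (t : ℝ)) ≤ (len n : ℝ) ^ (1 : ℝ) := by
    apply Real.rpow_le_rpow_of_exponent_le hlen1
    have ht1 : (1 : ℝ) ≤ t := by exact_mod_cast ht
    rw [div_le_one (by linarith)]
    exact ht1
  rw [Real.rpow_one] at h4
  refine lt_of_le_of_lt h4 ?_
  have h5 := (len_le n hn).2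
  exact_mod_cast (by omega : len n < q)

lemma five_le (t : ℕ) (ht : 1 ≤ t) : ∃ n₀ : ℕ, ∀ n : ℕ, n₀ ≤ n → (5 : ℝ) ≤ (n : ℝ) ^ (1 / (t : ℝ)) := by
  have ht0 : (0 : ℝ) < t := by exact_mod_cast ht
  obtain ⟨n₀, h⟩ := eventually_atTop.1 ((tendsto_natCast_atTop_atTop (R := ℝ)).eventually
    ((tendsto_rpow_atTop (y := 1 / (t : ℝ)) (by positivity)).eventually_ge_atTop 5))
  exact ⟨n₀, h⟩

/-- **Sexy primes between consecutive cubes.** `S(n)` is the number of the pairs of consecutive primes `(p, p + 6)` between `n ^ 3`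
and `(n + 1) ^ 3`. (I) There are `t ≥ 1`, `κ > 0` such that (1) for ALL large `n` there are at least `κ n ^ 2 / log ^ 2 n` integers `p`
with `n ^ 3 < p < p + 6 < (n + 1) ^ 3`, no prime between `p` and `p + 6` and no prime factor `≤ len(n) ^ (1/t)` of `p`, `p + 6`, while
`S(n) ≤ κ⁻¹ n ^ 2 / log ^ 2 n`; (2) for every function `ω ≥ 0` which tends to infinity there are sets `T_n` of at most
`ω(n) log ^ 3 n` integers between `n ^ 3` and `(n + 1) ^ 3` such that for every `ε > 0` and ALL large `n`, the number of the pairs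
of sexy primes with `p ∈ T_n` is `S(n) |T_n| / len(n)` up to an error at most `ε |T_n| / log ^ 2 n`; the same holds for the
pairs of almost primes in (1) and for those with exactly `a` and `b` prime factors of `p` and `p + 6`, for all `a, b ≤ n`.
(II) There are `t ≥ 1`, `κ > 0` such that for all large `N`, for at least `κ N` of the `n ∈ [N, 2 N)` there are at least
`κ n ^ 2 / log ^ 2 n` primes `p` with `n ^ 3 < p < p + 6 < (n + 1) ^ 3` and no prime between `p` and `p + 6` such that `p + 6` is a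
prime or a product of two primes and has no prime factor `≤ n ^ (1/t)`. -/
theorem result :
    (∃ (t : ℕ) (κ : ℝ), 1 ≤ t ∧ 0 < κ ∧
      (∃ n₀ : ℕ, ∀ n : ℕ, n₀ ≤ n →
        κ * ((n : ℝ) ^ 2 / Real.log n ^ 2) ≤ ((Almost ((len n : ℝ) ^ (1 / (t : ℝ))) n).card : ℝ) ∧
        (S n : ℝ) ≤ κ⁻¹ * ((n : ℝ) ^ 2 / Real.log n ^ 2)) ∧
      ∀ ω : ℕ → ℝ, (∀ n, 0 ≤ ω n) → Tendsto ω atTop atTop → ∃ T : ℕ → Finset ℕ,
        (∀ n, ∀ p ∈ T n, n ^ 3 < p ∧ p + 6 < (n + 1) ^ 3) ∧ (∀ n, ((T n).card : ℝ) ≤ ω n * Real.log n ^ 3) ∧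
        ∀ ε : ℝ, 0 < ε → ∃ n₀ : ℕ, ∀ n : ℕ, n₀ ≤ n → 0 < (T n).card ∧ Faithful ε n (T n) (Sexy n) ∧
          Faithful ε n (T n) (Almost ((len n : ℝ) ^ (1 / (t : ℝ))) n) ∧
          ∀ a b : ℕ, a ≤ n → b ≤ n → Faithful ε n (T n) (AlmostR ((len n : ℝ) ^ (1 / (t : ℝ))) a b n)) ∧
    (∃ (t : ℕ) (κ : ℝ), 1 ≤ t ∧ 0 < κ ∧ ∃ N₀ : ℕ, ∀ N : ℕ, N₀ ≤ N → ∃ U ⊆ Ico N (2 * N), κ * N ≤ (U.card : ℝ) ∧
      ∀ n ∈ U, κ * ((n : ℝ) ^ 2 / Real.log n ^ 2) ≤ ((Chen ((n : ℝ) ^ (1 / (t : ℝ))) n).card : ℝ)) := by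
  classical
  constructor
  · obtain ⟨t1, ht1, hl1⟩ := powLow H15 5 2 5 3 6 (by norm_num) h15card (by norm_num) (by norm_num) (by norm_num) h15loc h15k
    obtain ⟨t2, ht2, hl2⟩ := powLow H2 2 2 5 3 6 (by norm_num) h2card (by norm_num) (by norm_num) (by norm_num) h2loc h2k
    set t : ℕ := max t1 t2 with ht
    have ht0 : 1 ≤ t := ht1.trans (le_max_left _ _)
    obtain ⟨κ1, hκ1, n₁, g1⟩ := hl1 t (le_max_left _ _)
    obtain ⟨κ2, hκ2, n₂, g2⟩ := hl2 t (le_max_right _ _)
    obtain ⟨n₃, g3⟩ := five_le t ht0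
    refine ⟨t, min κ1 κ2, ht0, by positivity, ?_, ?_⟩
    · refine ⟨max (max n₁ n₂) (max n₃ 12), ?_⟩
      intro n hn
      have m1 : n₁ ≤ n := (le_max_left _ _).trans ((le_max_left _ _).trans hn)
      have m2 : n₂ ≤ n := (le_max_right _ _).trans ((le_max_left _ _).trans hn)
      have m3 : n₃ ≤ n := (le_max_left _ _).trans ((le_max_right _ _).trans hn)
      have m4 : 12 ≤ n := (le_max_right _ _).trans ((le_max_right _ _).trans hn)
      have hq0 : 0 ≤ (n : ℝ) ^ 2 / Real.log n ^ 2 := by positivity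
      constructor
      · have h1 := (g1 n m1).1
        refine (mul_le_mul_of_nonneg_right (min_le_left _ _) hq0).trans (h1.trans ?_)
        rw [Nat.cast_le]
        apply card_le_card
        apply sub_almost t n (by omega)
        refine (g3 n m3).trans ?_
        apply Real.rpow_le_rpow (by positivity) _ (by positivity)
        have := (LP_bounds (e := 3) (m := 6) (n := n) (by norm_num) (by omega)).1
        rw [len_eq] at this
        exact_mod_cast this
      · have h1 := (g2 n m2).2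
        have h2 : (S n : ℝ) ≤ ((IS t (LP 3 6 n) (n ^ 3) (n ^ 3 + LP 3 6 n) (Tz H2)).card : ℝ) := by
          exact_mod_cast card_le_card ((sexy_sub t n ht0 m4).trans (almost_sub t n))
        refine h2.trans (h1.trans (mul_le_mul_of_nonneg_right ?_ hq0))
        exact inv_anti₀ (by positivity) (min_le_right _ _)
    · intro ω hω0 hω
      set I : ℕ → Finset (Option (Option (ℕ × ℕ))) := fun n =>
        if 12 ≤ n then insertNone (insertNone (range (n + 1) ×ˢ range (n + 1))) else ∅ with hI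
      set R : ℕ → Option (Option (ℕ × ℕ)) → Finset ℕ := fun n o =>
        match o with
        | none => Sexy n
        | some none => Almost ((len n : ℝ) ^ (1 / (t : ℝ))) n
        | some (some r) => AlmostR ((len n : ℝ) ^ (1 / (t : ℝ))) r.1 r.2 n with hR
      obtain ⟨T, hT1, hT2, hT3⟩ := powSampleLog H2 2 5 (by norm_num) h2card (by norm_num) 3 6 4 t (by norm_num) ht0 h2loc h2k
        _ I R (by
        intro n o ho
        rw [hI] at ho
        simp only at ho
        split_ifs at ho with hn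
        · refine Subset.trans ?_ (almost_sub t n)
          rw [hR]
          rcases o with _ | _ | r
          · exact sexy_sub t n ht0 hn
          · exact Subset.refl _
          · exact filter_subset _ _
        · simp at ho) (by
        filter_upwards [eventually_ge_atTop 12] with n hn
        rw [hI]
        simp only
        rw [if_pos hn, card_insertNone, card_insertNone, card_product, card_range]
        have h1 : (n + 1) * (n + 1) + 1 + 1 ≤ 2 * n ^ 2 := by nlinarith
        have h2 : 2 * n ^ 2 ≤ n ^ 2 * n ^ 2 := Nat.mul_le_mul_right _ (by nlinarith)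
        have h3 : n ^ 4 = n ^ 2 * n ^ 2 := by ring
        omega) ω hω0 hω
      refine ⟨T, ?_, hT2, ?_⟩
      · intro n p hp
        exact (window n p).2 (hT1 n hp)
      · intro ε hε
        obtain ⟨n₀, hn₀⟩ := hT3 ε hε
        refine ⟨max n₀ 12, ?_⟩
        intro n hn
        have n1 : n₀ ≤ n := (le_max_left _ _).trans hn
        have n2 : 12 ≤ n := (le_max_right _ _).trans hn
        obtain ⟨g1, g2⟩ := hn₀ n n1
        have hIn : I n = insertNone (insertNone (range (n + 1) ×ˢ range (n + 1))) := by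
          rw [hI]
          simp only
          rw [if_pos n2]
        have key : ∀ o ∈ I n, Faithful ε n (T n) (R n o) := by
          intro o ho
          have := g2 o ho
          rw [len_eq] at this
          exact this
        refine ⟨g1, ?_, ?_, ?_⟩
        · exact key none (by rw [hIn]; simp)
        · exact key (some none) (by rw [hIn]; simp)
        · intro a b ha hb
          exact key (some (some (a, b))) (by
            rw [hIn, some_mem_insertNone, some_mem_insertNone, mem_product, mem_range, mem_range]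
            simp only
            omega)
  · obtain ⟨t, ht, κ, hκ, N₀, h⟩ := posPropLog H15 5 2 5 6 3 6 (by norm_num) (by norm_num) h15card
      (fun q => H2_sub q (by unfold H2; simp)) (fun q => H2_sub q (by unfold H2; simp)) (by norm_num) (by norm_num) h15loc h15k
    obtain ⟨n₃, g3⟩ := five_le t ht
    refine ⟨t, κ, ht, hκ, max N₀ (max n₃ 2), ?_⟩
    intro N hN
    obtain ⟨U, hU, hUc, hUn⟩ := h N ((le_max_left _ _).trans hN)
    refine ⟨U, hU, hUc, ?_⟩
    intro n hn
    have hnN := (mem_Ico.1 (hU hn)).1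
    have m3 : n₃ ≤ n := ((le_max_left _ _).trans ((le_max_right _ _).trans hN)).trans hnN
    have m4 : 2 ≤ n := ((le_max_right _ _).trans ((le_max_right _ _).trans hN)).trans hnN
    refine (hUn n hn).trans ?_
    rw [Nat.cast_le]
    apply card_le_card
    intro p hp
    unfold Gap at hp
    rw [mem_filter, mem_Ioo] at hp
    obtain ⟨a1, a2, a3, a4, a5⟩ := hp
    have hz := g3 n m3
    have hno : ∀ q : ℕ, q.Prime → (q : ℝ) ≤ (n : ℝ) ^ (1 / (t : ℝ)) → p % q ∉ Tz H15 q := by
      intro q hq hqz hmem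
      obtain ⟨h, hh, hd⟩ := (mem_Tz H15 hq.pos p).1 hmem
      have := a5 q hq h hh hd
      linarith
    have hp6 : 6 ≤ p := by
      have : 2 ^ 3 ≤ n ^ 3 := Nat.pow_le_pow_left m4 _
      omega
    have h2 : ¬ 2 ∣ p := by
      intro h
      refine hno 2 Nat.prime_two (by push_cast; linarith) ((mem_Tz H15 (by norm_num) p).2 ⟨0, ?_, by simpa using h⟩)
      exact H2_sub 2 (by unfold H2; simp)
    unfold Chen
    rw [mem_filter, mem_almost]
    refine ⟨⟨⟨a1.1, a2⟩, no_prime (hno 3 Nat.prime_three (by push_cast; linarith))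
      (hno 5 Nat.prime_five (by push_cast; linarith)) h2 hp6, fun q hq hd => ?_⟩, a3, a4.1⟩
    rcases hd with hd | hd
    · exact a5 q hq 0 (H2_sub q (by unfold H2; simp)) (by simpa using hd)
    · exact a5 q hq 6 (H2_sub q (by unfold H2; simp)) hd

end Pool.Agent.Results.MP_5628fe_nt.SexyCubes
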